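import Pool.Agent.Helper17.TH.GoalsII
import Pool.Agent.Helper51.SigLeo.Core

/-!
# Project TH, packet S_SPN: descent of a linear system
-/

set_option autoImplicit false

namespace Pool.Agent.Helper18.TH

open NumberField Module IsDedekindDomain TensorProduct
open Pool.Agent.Helper51.SigLeo Pool.Agent.Helper51.RP Pool.Agent.Helper17.TH
open Pool.Agent.Helper38.FD (Chr CutsOut LeopoldtFor)

section

variable {k : Type} [Field k] {A : Type} [AddCommGroup A]

/-- `μ ⊗ id` on `k ⊗ A`. -/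
noncomputable def mm (A : Type) [AddCommGroup A] (μ : k →+ k) :
    (k ⊗[ℤ] A) →ₗ[ℤ] (k ⊗[ℤ] A) :=
  TensorProduct.map μ.toIntLinearMap LinearMap.id

theorem mm_tmul (μ : k →+ k) (x : k) (a : A) : mm A μ (x ⊗ₜ[ℤ] a) = μ x ⊗ₜ[ℤ] a := rfl

theorem mm_extHom (μ : k →+ k) (F : A →+ k) (h : ∀ x a, μ (x * F a) = μ x * F a)
    (v : k ⊗[ℤ] A) : extHom F (mm A μ v) = μ (extHom F v) := by
  induction v using TensorProduct.induction_on with
  | zero => simp
  | tmul x a => rw [mm_tmul, extHom_tmul, extHom_tmul, h]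
  | add x y hx hy => rw [map_add, map_add, map_add, map_add, hx, hy]

theorem mm_extEnd (μ : k →+ k) (φ : A →+ A) (v : k ⊗[ℤ] A) :
    extEnd φ (mm A μ v) = mm A μ (extEnd φ v) := by
  induction v using TensorProduct.induction_on with
  | zero => simp
  | tmul x a => rw [mm_tmul, extEnd_tmul, extEnd_tmul, mm_tmul]
  | add x y hx hy => rw [map_add, map_add, map_add, map_add, hx, hy]

theorem mm_smul (μ : k →+ k) (c : k) (h : ∀ x, μ (c * x) = c * μ x) (v : k ⊗[ℤ] A) :
    mm A μ (c • v) = c • mm A μ v := by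
  induction v using TensorProduct.induction_on with
  | zero => simp
  | tmul x a =>
    rw [TensorProduct.smul_tmul', mm_tmul, mm_tmul, TensorProduct.smul_tmul', smul_eq_mul,
      smul_eq_mul, h]
  | add x y hx hy => rw [smul_add, map_add, map_add, hx, hy, smul_add]

end

theorem s_spn : S_SPN := by
  intro p _ O _ _ _ j hj hjp A _ _ I J f φ c v hf hφ
  classical
  let L : Subfield ℂ_[p] := Subfield.closure (Set.range j)
  have hjL : ∀ o, j o ∈ L := fun o => Subfield.subset_closure ⟨o, rfl⟩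
  have hLdiv : ∀ x ∈ L, ∃ o y : O, o ≠ 0 ∧ j o * x = j y := by
    intro x hx
    obtain ⟨y, hy, z, hz, hyz⟩ := Subfield.mem_closure_iff.1 hx
    have hr : Subring.closure (Set.range j) = j.range := by
      have := Subring.closure_eq j.range
      simpa using this
    rw [hr] at hy hz
    obtain ⟨y', rfl⟩ := hy
    obtain ⟨z', rfl⟩ := hz
    by_cases hz0 : z' = 0
    · refine ⟨1, 0, one_ne_zero, ?_⟩
      rw [← hyz, hz0]
      simp
    · refine ⟨z', y', hz0, ?_⟩
      have hz1 : j z' ≠ 0 := fun h => hz0 (hj (by rw [h, map_zero]))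
      rw [← hyz]
      field_simp
  have hQ : ∀ q : ℚ_[p], algebraMap ℚ_[p] ℂ_[p] q ∈ L := by
    intro q
    obtain ⟨a, b, -, rfl⟩ := IsFractionRing.div_surjective (A := ℤ_[p]) q
    rw [map_div₀]
    refine L.div_mem ?_ ?_
    · have := hjp a
      change algebraMap ℚ_[p] ℂ_[p] (a : ℚ_[p]) ∈ L
      rw [← this]
      exact hjL _
    · have := hjp b
      change algebraMap ℚ_[p] ℂ_[p] (b : ℚ_[p]) ∈ L
      rw [← this]
      exact hjL _
  let b := Basis.ofVectorSpace L ℂ_[p]
  let μ : (Basis.ofVectorSpaceIndex L ℂ_[p]) → ℂ_[p] →+ ℂ_[p] := fun l =>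
    (L.subtype : L →+ ℂ_[p]).comp (b.coord l).toAddMonoidHom
  have hμ : ∀ l, ∀ a ∈ L, ∀ x, μ l (a * x) = a * μ l x := by
    intro l a ha x
    have h1 : b.coord l ((⟨a, ha⟩ : L) • x) = (⟨a, ha⟩ : L) • b.coord l x := map_smul _ _ _
    have h2 := congrArg (fun y : L => (y : ℂ_[p])) h1
    exact h2
  have hμL : ∀ l x, μ l x ∈ L := fun l x => (b.coord l x).2
  -- decomposition
  have hdec : ∀ v : ℂ_[p] ⊗[ℤ] A, ∃ s : Finset (Basis.ofVectorSpaceIndex L ℂ_[p]),
      ∀ t, s ⊆ t → v = ∑ l ∈ t, b l • mm A (μ l) v := by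
    intro v
    induction v using TensorProduct.induction_on with
    | zero => exact ⟨∅, fun t _ => by simp⟩
    | tmul x a =>
      refine ⟨(b.repr x).support, fun t ht => ?_⟩
      have h1 : x = ∑ l ∈ t, b l * μ l x := by
        have h2 := b.linearCombination_repr x
        rw [Finsupp.linearCombination_apply, Finsupp.sum_of_support_subset _ ht _ (by simp)] at h2
        conv_lhs => rw [← h2]
        refine Finset.sum_congr rfl fun l _ => ?_
        rw [mul_comm]
        rfl
      have h3 : ∑ l ∈ t, b l • mm A (μ l) (x ⊗ₜ[ℤ] a) = (∑ l ∈ t, b l * μ l x) ⊗ₜ[ℤ] a := by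
        rw [TensorProduct.sum_tmul]
        refine Finset.sum_congr rfl fun l _ => ?_
        rw [mm_tmul, TensorProduct.smul_tmul', smul_eq_mul]
      rw [h3, ← h1]
    | add x y hx hy =>
      obtain ⟨s1, h1⟩ := hx
      obtain ⟨s2, h2⟩ := hy
      refine ⟨s1 ∪ s2, fun t ht => ?_⟩
      have e1 := h1 t (Finset.union_subset_left ht)
      have e2 := h2 t (Finset.union_subset_right ht)
      conv_lhs => rw [e1, e2]
      rw [← Finset.sum_add_distrib]
      refine Finset.sum_congr rfl fun l _ => ?_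
      rw [map_add, smul_add]
  have htm : ∀ (o : O) (z : O ⊗[ℤ] A), tm j A (o • z) = j o • tm j A z := by
    intro o z
    induction z using TensorProduct.induction_on with
    | zero => simp
    | tmul x a =>
      change tm j A ((o • x) ⊗ₜ[ℤ] a) = (j o • j x) ⊗ₜ[ℤ] a
      rw [smul_eq_mul, smul_eq_mul, ← map_mul]
      rfl
    | add x y hx hy => rw [smul_add, map_add, map_add, hx, hy, smul_add]
  have hint : ∀ (l : Basis.ofVectorSpaceIndex L ℂ_[p]) (v : ℂ_[p] ⊗[ℤ] A),
      ∃ o : O, o ≠ 0 ∧ ∃ z, j o • mm A (μ l) v = tm j A z := by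
    intro l v
    induction v using TensorProduct.induction_on with
    | zero => exact ⟨1, one_ne_zero, 0, by simp⟩
    | tmul x a =>
      obtain ⟨o, y, ho, hy⟩ := hLdiv (μ l x) (hμL l x)
      refine ⟨o, ho, y ⊗ₜ[ℤ] a, ?_⟩
      rw [mm_tmul, TensorProduct.smul_tmul', smul_eq_mul, hy]
      rfl
    | add x y hx hy =>
      obtain ⟨o1, h1, z1, e1⟩ := hx
      obtain ⟨o2, h2, z2, e2⟩ := hy
      refine ⟨o1 * o2, mul_ne_zero h1 h2, o2 • z1 + o1 • z2, ?_⟩
      rw [map_add, map_add, htm, htm, ← e1, ← e2, map_mul, smul_add, smul_smul, smul_smul,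
        mul_comm (j o2)]
  obtain ⟨s, hs⟩ := hdec v
  rw [hs s subset_rfl]
  refine Submodule.sum_mem _ fun l _ => ?_
  obtain ⟨o, ho, z, hz⟩ := hint l v
  have ho' : j o ≠ 0 := fun h => ho (hj (by rw [h, map_zero]))
  have e : b l • mm A (μ l) v = (b l * (j o)⁻¹) • (j o • mm A (μ l) v) := by
    rw [smul_smul, mul_assoc, inv_mul_cancel₀ ho', mul_one]
  rw [e]
  refine Submodule.smul_mem _ _ (Submodule.subset_span ⟨⟨z, hz⟩, fun i => ?_, fun h => ?_⟩)
  · rw [map_smul, mm_extHom, hf i, map_zero, smul_zero]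
    intro x a
    have h1 := hμ l _ (hQ (f i a)) x
    rw [mul_comm] at h1
    rw [mul_comm (μ l x)]
    exact h1
  · rw [map_smul, mm_extEnd, hφ h, mm_smul _ _ (hμ l _ (hjL _)), smul_comm]

end Pool.Agent.Helper18.TH
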